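import Mathlib
import Pool.Agent.H46.HJMain

/-!
A fractional packing of intervals at `n = 47`: data and kernel check.
-/

namespace Pool.Agent.HJ47

open Finset

/-- Lower end of the type of a copy `(q0, d1, d2, e1, e2, w)` for a set of active blocks. -/
def sA (c : ℕ × ℕ × ℕ × ℕ × ℕ × ℕ) (S : Finset (Fin 4)) : ℕ :=
  c.1 + (if 0 ∈ S then 0 else c.2.1) + (if 1 ∈ S then 0 else c.2.2.1)

/-- Length of the type. -/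
def sD (c : ℕ × ℕ × ℕ × ℕ × ℕ × ℕ) (S : Finset (Fin 4)) : ℕ :=
  (if 0 ∈ S then c.2.1 else 0) + (if 1 ∈ S then c.2.2.1 else 0) +
    (if 2 ∈ S then c.2.2.2.1 else 0) + (if 3 ∈ S then c.2.2.2.2.1 else 0)

/-- Capacities. -/
def cap (a b : ℕ) : ℕ :=
  if a = 0 then (if b = 47 then 1 else 2) else (if b = 47 then 2 else 4)

/-- Part of the packing. -/
def cp0 : List (ℕ × ℕ × ℕ × ℕ × ℕ × ℕ) :=
  [(0, 1, 1, 1, 1, 34), (0, 1, 1, 2, 2, 20), (0, 1, 1, 2, 39, 4), (0, 1, 1, 3, 3, 31),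
   (0, 1, 1, 4, 4, 15), (0, 1, 1, 5, 5, 19), (0, 1, 1, 6, 6, 10), (0, 1, 1, 11, 11, 1),
   (0, 1, 2, 2, 40, 14), (0, 1, 2, 6, 6, 28), (0, 1, 2, 7, 7, 6), (0, 1, 2, 8, 35, 20),
   (0, 1, 3, 5, 5, 13), (0, 1, 3, 13, 13, 29), (0, 1, 3, 14, 24, 16), (0, 1, 4, 5, 5, 9),
   (0, 1, 5, 7, 33, 1), (0, 1, 7, 8, 8, 1), (0, 1, 10, 3, 3, 3), (0, 1, 11, 6, 6, 5),
   (0, 1, 15, 9, 9, 4), (0, 1, 17, 5, 5, 7), (0, 1, 22, 12, 12, 7), (0, 1, 23, 10, 13, 2),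
   (0, 1, 24, 1, 1, 38), (0, 2, 3, 3, 3, 2), (0, 2, 3, 4, 10, 33), (0, 2, 3, 18, 18, 16),
   (0, 2, 5, 4, 4, 3), (0, 2, 5, 5, 35, 18), (0, 2, 5, 6, 6, 45), (0, 2, 6, 15, 18, 2),
   (0, 2, 9, 1, 1, 20), (0, 2, 9, 10, 10, 15), (0, 2, 10, 5, 5, 2), (0, 2, 12, 2, 2, 4),
   (0, 2, 15, 3, 16, 12), (0, 2, 18, 5, 21, 12), (0, 2, 20, 3, 20, 7), (0, 2, 20, 11, 11, 17),
   (0, 3, 3, 1, 1, 13), (0, 3, 3, 3, 38, 2), (0, 3, 3, 5, 5, 16), (0, 3, 3, 6, 6, 4),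
   (0, 3, 3, 10, 10, 18), (0, 3, 3, 15, 15, 9), (0, 3, 3, 16, 16, 6), (0, 3, 3, 17, 17, 3),
   (0, 3, 3, 19, 19, 10), (0, 3, 4, 14, 14, 6), (0, 3, 5, 2, 10, 33), (0, 3, 6, 1, 27, 5),
   (0, 3, 12, 1, 22, 26), (0, 3, 18, 3, 3, 6), (0, 3, 21, 5, 5, 23), (0, 3, 23, 2, 2, 6),
   (0, 3, 24, 7, 7, 6), (0, 3, 34, 2, 2, 7), (0, 3, 38, 3, 3, 2), (0, 4, 4, 7, 28, 19),
   (0, 4, 4, 9, 9, 8), (0, 4, 5, 1, 33, 3), (0, 4, 5, 9, 9, 6), (0, 4, 13, 2, 2, 4),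
   (0, 4, 23, 1, 1, 5), (0, 4, 27, 7, 7, 9), (0, 5, 5, 1, 1, 14), (0, 5, 5, 3, 27, 2),
   (0, 5, 5, 4, 4, 8), (0, 5, 5, 14, 21, 12), (0, 5, 5, 18, 18, 13), (0, 5, 6, 9, 11, 8),
   (0, 5, 16, 11, 11, 12), (0, 5, 25, 5, 5, 30), (0, 5, 35, 2, 5, 18), (0, 6, 6, 1, 1, 10),
   (0, 6, 6, 5, 9, 15), (0, 6, 6, 6, 26, 4), (0, 6, 9, 6, 26, 1), (0, 6, 15, 12, 12, 8),
   (0, 6, 17, 4, 4, 14), (0, 6, 22, 2, 2, 4), (0, 6, 23, 2, 12, 12), (0, 6, 26, 4, 4, 2),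
   (0, 6, 26, 6, 9, 1), (0, 7, 7, 1, 26, 16), (0, 7, 7, 2, 20, 8), (0, 7, 7, 3, 3, 8),
   (0, 7, 7, 7, 23, 30), (0, 7, 7, 8, 8, 5), (0, 7, 7, 12, 18, 7), (0, 7, 10, 14, 16, 2),
   (0, 7, 11, 12, 12, 12), (0, 7, 15, 12, 12, 28), (0, 7, 28, 2, 2, 20), (0, 8, 8, 4, 13, 21),
   (0, 8, 8, 8, 8, 8), (0, 8, 8, 11, 11, 3), (0, 8, 17, 3, 3, 8), (0, 9, 9, 1, 1, 24),
   (0, 9, 9, 8, 16, 2), (0, 9, 14, 10, 10, 23), (0, 9, 27, 4, 4, 7), (0, 10, 10, 2, 21, 15),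
   (0, 10, 13, 1, 23, 2), (0, 10, 19, 7, 7, 10), (0, 10, 26, 5, 5, 14), (0, 11, 11, 1, 1, 18),
   (0, 11, 11, 5, 5, 18), (0, 11, 11, 7, 7, 1), (0, 11, 20, 1, 11, 15), (0, 12, 12, 1, 20, 34),
   (0, 12, 12, 1, 22, 7), (0, 13, 22, 5, 5, 18), (0, 14, 14, 1, 3, 36), (0, 14, 14, 7, 7, 4),
   (0, 14, 16, 7, 10, 2), (0, 15, 15, 2, 2, 4), (0, 15, 15, 8, 8, 25), (0, 15, 25, 1, 5, 13),
   (0, 16, 16, 5, 5, 9), (0, 16, 17, 5, 5, 4), (0, 17, 17, 1, 1, 4), (0, 17, 17, 5, 5, 21),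
   (0, 18, 18, 3, 3, 28), (1, 1, 1, 1, 1, 28), (1, 1, 1, 2, 2, 8), (1, 1, 1, 3, 3, 22),
   (1, 1, 1, 5, 5, 10), (1, 1, 2, 12, 28, 1), (1, 1, 3, 4, 32, 35), (1, 1, 3, 6, 6, 16),
   (1, 1, 4, 8, 8, 17), (1, 1, 4, 9, 9, 52), (1, 1, 5, 12, 12, 17), (1, 1, 5, 13, 13, 17),
   (1, 1, 5, 15, 25, 13), (1, 1, 6, 19, 19, 37), (1, 1, 7, 1, 1, 40), (1, 1, 12, 11, 11, 13)]

/-- Part of the packing. -/
def cp1 : List (ℕ × ℕ × ℕ × ℕ × ℕ × ℕ) :=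
  [(1, 1, 12, 15, 15, 23), (1, 1, 13, 3, 3, 9), (1, 1, 14, 12, 12, 35), (1, 1, 15, 14, 14, 35),
   (1, 1, 19, 2, 2, 8), (1, 1, 24, 4, 4, 30), (1, 1, 30, 1, 1, 35), (1, 1, 35, 1, 6, 36),
   (1, 2, 2, 1, 1, 2), (1, 2, 2, 3, 3, 8), (1, 2, 2, 9, 9, 15), (1, 2, 2, 14, 14, 2),
   (1, 2, 3, 2, 33, 12), (1, 2, 3, 6, 32, 24), (1, 2, 3, 17, 17, 17), (1, 2, 4, 3, 3, 17),
   (1, 2, 5, 4, 4, 31), (1, 2, 6, 9, 9, 18), (1, 2, 7, 1, 1, 8), (1, 2, 7, 11, 11, 33),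
   (1, 2, 9, 7, 23, 39), (1, 2, 10, 13, 17, 29), (1, 2, 14, 12, 12, 18), (1, 2, 16, 7, 7, 24),
   (1, 2, 28, 7, 7, 22), (1, 2, 33, 3, 3, 25), (1, 3, 3, 1, 1, 11), (1, 3, 3, 4, 4, 28),
   (1, 3, 3, 9, 9, 39), (1, 3, 3, 13, 13, 8), (1, 3, 3, 17, 17, 12), (1, 3, 3, 19, 19, 24),
   (1, 3, 4, 19, 19, 28), (1, 3, 5, 17, 17, 9), (1, 3, 6, 5, 15, 30), (1, 3, 6, 18, 18, 26),
   (1, 3, 8, 1, 1, 49), (1, 3, 9, 6, 24, 21), (1, 3, 10, 8, 8, 44), (1, 3, 12, 2, 2, 21),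
   (1, 3, 13, 3, 3, 39), (1, 3, 14, 3, 3, 57), (1, 3, 15, 3, 22, 64), (1, 3, 16, 1, 21, 19),
   (1, 3, 18, 9, 9, 23), (1, 3, 28, 2, 2, 27), (1, 3, 29, 2, 2, 24), (1, 3, 32, 4, 4, 14),
   (1, 3, 38, 1, 1, 13), (1, 4, 4, 3, 27, 24), (1, 4, 4, 4, 20, 1), (1, 4, 4, 5, 7, 9),
   (1, 4, 4, 7, 16, 16), (1, 4, 6, 3, 3, 7), (1, 4, 7, 13, 18, 22), (1, 4, 17, 1, 1, 49),
   (1, 4, 26, 5, 5, 21), (1, 4, 29, 6, 6, 5), (1, 5, 5, 2, 2, 18), (1, 5, 5, 6, 6, 8),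
   (1, 5, 5, 9, 18, 47), (1, 5, 5, 10, 26, 14), (1, 5, 8, 2, 2, 3), (1, 5, 12, 10, 10, 6),
   (1, 5, 21, 2, 18, 12), (1, 5, 24, 1, 1, 4), (1, 6, 6, 4, 29, 5), (1, 6, 6, 13, 13, 3),
   (1, 6, 6, 15, 15, 14), (1, 6, 6, 15, 17, 29), (1, 6, 7, 10, 10, 10), (1, 6, 9, 11, 11, 9),
   (1, 6, 11, 11, 11, 27), (1, 7, 7, 1, 27, 30), (1, 7, 7, 3, 18, 4), (1, 7, 7, 4, 22, 9),
   (1, 7, 8, 2, 22, 30), (1, 7, 11, 1, 1, 28), (1, 7, 14, 12, 12, 18), (1, 7, 23, 2, 2, 18),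
   (1, 7, 24, 5, 5, 18), (1, 7, 33, 1, 5, 1), (1, 8, 8, 1, 20, 13), (1, 8, 8, 7, 18, 23),
   (1, 8, 8, 9, 9, 8), (1, 8, 8, 15, 15, 25), (1, 8, 19, 8, 8, 18), (1, 8, 35, 1, 2, 21),
   (1, 9, 9, 5, 20, 30), (1, 9, 9, 13, 13, 13), (1, 9, 19, 1, 1, 12), (1, 10, 16, 1, 1, 19),
   (1, 10, 22, 3, 3, 13), (1, 11, 11, 1, 12, 4), (1, 11, 11, 11, 11, 34),
   (1, 11, 15, 4, 4, 20), (1, 12, 12, 6, 14, 8), (1, 12, 12, 7, 14, 18),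
   (1, 12, 12, 7, 15, 28), (1, 12, 12, 8, 8, 30), (1, 13, 13, 4, 13, 10), (1, 13, 13, 7, 7, 4),
   (1, 13, 19, 5, 5, 9), (1, 14, 14, 5, 10, 18), (1, 14, 14, 6, 6, 21), (1, 15, 19, 1, 1, 26),
   (1, 17, 17, 3, 7, 24), (1, 18, 18, 2, 2, 12), (1, 18, 18, 3, 6, 26), (1, 18, 18, 5, 5, 13),
   (1, 19, 19, 1, 6, 36), (1, 19, 19, 3, 4, 28), (2, 1, 1, 3, 3, 10), (2, 1, 1, 4, 4, 25),
   (2, 1, 1, 9, 9, 20), (2, 1, 1, 11, 11, 5), (2, 1, 1, 16, 16, 16), (2, 1, 2, 1, 1, 2),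
   (2, 1, 4, 10, 10, 40), (2, 1, 4, 14, 14, 39), (2, 1, 6, 15, 16, 5), (2, 1, 7, 12, 12, 37),
   (2, 1, 8, 5, 26, 38), (2, 1, 11, 4, 24, 51), (2, 1, 20, 12, 12, 34), (2, 1, 21, 3, 3, 28),
   (2, 1, 23, 3, 3, 45), (2, 1, 31, 2, 2, 4), (2, 1, 36, 2, 2, 22), (2, 2, 2, 3, 3, 23),
   (2, 2, 2, 3, 21, 10), (2, 2, 2, 6, 21, 4), (2, 2, 2, 7, 18, 17), (2, 2, 2, 12, 12, 3),
   (2, 2, 7, 3, 3, 16), (2, 2, 7, 12, 17, 31), (2, 2, 7, 13, 13, 19), (2, 2, 16, 6, 6, 24),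
   (2, 2, 35, 3, 3, 4), (2, 2, 40, 1, 2, 14)]

/-- Part of the packing. -/
def cp2 : List (ℕ × ℕ × ℕ × ℕ × ℕ × ℕ) :=
  [(2, 3, 3, 2, 35, 5), (2, 3, 3, 4, 4, 12), (2, 3, 3, 10, 10, 17), (2, 3, 3, 15, 15, 16),
   (2, 3, 3, 17, 17, 37), (2, 3, 7, 17, 17, 24), (2, 3, 8, 4, 4, 30), (2, 3, 15, 1, 1, 52),
   (2, 3, 17, 4, 4, 22), (2, 3, 19, 9, 9, 10), (2, 3, 20, 2, 20, 7), (2, 4, 4, 3, 3, 26),
   (2, 4, 4, 5, 8, 14), (2, 4, 4, 9, 9, 22), (2, 4, 4, 11, 20, 13), (2, 4, 4, 13, 22, 29),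
   (2, 4, 4, 16, 16, 8), (2, 4, 5, 14, 14, 30), (2, 4, 9, 14, 14, 8), (2, 4, 21, 8, 8, 14),
   (2, 4, 22, 8, 8, 55), (2, 5, 5, 3, 29, 8), (2, 5, 5, 4, 4, 31), (2, 5, 5, 6, 6, 17),
   (2, 5, 5, 7, 7, 14), (2, 5, 5, 13, 22, 18), (2, 5, 24, 5, 5, 11), (2, 6, 6, 1, 1, 25),
   (2, 6, 6, 3, 3, 21), (2, 6, 6, 5, 5, 31), (2, 6, 6, 9, 9, 6), (2, 6, 6, 12, 12, 22),
   (2, 6, 14, 12, 12, 9), (2, 6, 15, 2, 16, 49), (2, 6, 22, 3, 10, 18), (2, 6, 28, 3, 3, 21),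
   (2, 7, 7, 2, 28, 22), (2, 7, 7, 3, 3, 6), (2, 7, 7, 4, 27, 9), (2, 7, 7, 7, 22, 19),
   (2, 7, 7, 12, 17, 8), (2, 7, 20, 2, 2, 19), (2, 7, 21, 2, 2, 18), (2, 7, 22, 7, 7, 19),
   (2, 7, 25, 5, 5, 12), (2, 8, 8, 1, 23, 10), (2, 8, 8, 9, 18, 20), (2, 8, 8, 10, 15, 19),
   (2, 8, 8, 11, 11, 13), (2, 8, 8, 13, 13, 23), (2, 8, 24, 1, 1, 15), (2, 8, 30, 2, 2, 1),
   (2, 9, 9, 10, 10, 23), (2, 9, 9, 12, 12, 21), (2, 9, 17, 4, 4, 3), (2, 9, 18, 8, 8, 19),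
   (2, 10, 10, 5, 8, 4), (2, 10, 10, 5, 16, 11), (2, 10, 10, 6, 6, 15), (2, 10, 25, 3, 3, 26),
   (2, 11, 11, 3, 3, 16), (2, 11, 11, 10, 10, 19), (2, 11, 11, 11, 11, 34),
   (2, 11, 20, 3, 6, 31), (2, 12, 12, 6, 15, 8), (2, 12, 12, 7, 7, 10), (2, 12, 17, 7, 7, 7),
   (2, 13, 13, 9, 9, 13), (2, 13, 22, 4, 4, 29), (2, 14, 14, 1, 15, 32), (2, 14, 21, 5, 5, 12),
   (2, 15, 15, 5, 5, 6), (2, 15, 15, 6, 6, 17), (2, 15, 17, 6, 6, 29), (2, 16, 17, 4, 4, 35),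
   (2, 19, 19, 3, 3, 24), (3, 1, 1, 3, 38, 13), (3, 1, 1, 4, 4, 9), (3, 1, 1, 5, 5, 25),
   (3, 1, 1, 7, 7, 7), (3, 1, 1, 9, 9, 21), (3, 1, 1, 10, 10, 14), (3, 1, 1, 14, 14, 14),
   (3, 1, 6, 1, 35, 36), (3, 1, 9, 15, 15, 21), (3, 1, 11, 12, 12, 16), (3, 1, 14, 4, 4, 14),
   (3, 1, 17, 3, 18, 40), (3, 1, 24, 3, 3, 16), (3, 1, 25, 3, 3, 13), (3, 1, 26, 3, 3, 13),
   (3, 2, 2, 5, 27, 14), (3, 2, 2, 8, 30, 1), (3, 2, 2, 13, 13, 33), (3, 2, 2, 17, 17, 14),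
   (3, 2, 8, 3, 27, 16), (3, 2, 11, 6, 6, 20), (3, 2, 12, 1, 1, 20), (3, 3, 3, 5, 16, 30),
   (3, 3, 3, 13, 20, 22), (3, 3, 3, 15, 15, 26), (3, 3, 6, 2, 23, 20), (3, 3, 6, 7, 7, 14),
   (3, 3, 6, 15, 15, 6), (3, 3, 10, 1, 25, 35), (3, 3, 14, 7, 7, 13), (3, 3, 22, 3, 15, 64),
   (3, 3, 29, 5, 5, 8), (3, 4, 4, 3, 32, 14), (3, 4, 4, 9, 27, 6), (3, 4, 4, 13, 20, 60),
   (3, 4, 7, 4, 25, 35), (3, 4, 13, 13, 13, 10), (3, 4, 23, 1, 1, 12), (3, 4, 23, 4, 4, 16),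
   (3, 5, 5, 5, 15, 21), (3, 5, 5, 7, 25, 11), (3, 5, 5, 9, 9, 22), (3, 5, 5, 11, 11, 11),
   (3, 5, 5, 17, 17, 21), (3, 5, 7, 5, 24, 17), (3, 5, 10, 14, 14, 18), (3, 5, 20, 4, 4, 25),
   (3, 5, 20, 9, 9, 30), (3, 5, 24, 5, 7, 16), (3, 6, 6, 5, 5, 24), (3, 6, 6, 6, 23, 2),
   (3, 6, 6, 11, 11, 28), (3, 6, 6, 15, 15, 17), (3, 6, 8, 6, 6, 11), (3, 6, 23, 6, 6, 2),
   (3, 6, 26, 6, 6, 2), (3, 6, 32, 2, 3, 24), (3, 7, 7, 8, 8, 43), (3, 7, 7, 13, 13, 1),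
   (3, 7, 16, 1, 1, 3), (3, 7, 18, 6, 6, 16), (3, 7, 21, 1, 1, 4), (3, 7, 23, 7, 7, 30),
   (3, 8, 8, 4, 22, 56)]

/-- Part of the packing. -/
def cp3 : List (ℕ × ℕ × ℕ × ℕ × ℕ × ℕ) :=
  [(3, 8, 8, 8, 17, 6), (3, 8, 8, 8, 19, 18), (3, 8, 17, 8, 8, 6), (3, 9, 9, 4, 4, 15),
   (3, 9, 9, 9, 9, 3), (3, 9, 9, 10, 10, 14), (3, 10, 10, 7, 7, 10), (3, 10, 10, 10, 10, 1),
   (3, 10, 10, 11, 11, 19), (3, 10, 14, 8, 8, 4), (3, 11, 11, 1, 12, 3),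
   (3, 11, 11, 2, 20, 17), (3, 11, 11, 7, 7, 5), (3, 11, 11, 8, 8, 9), (3, 11, 18, 3, 3, 28),
   (3, 12, 12, 9, 9, 21), (3, 12, 18, 7, 7, 6), (3, 12, 28, 1, 2, 1), (3, 13, 13, 7, 7, 11),
   (3, 13, 13, 8, 8, 23), (3, 13, 20, 4, 4, 60), (3, 14, 14, 3, 3, 12), (3, 15, 15, 1, 12, 23),
   (3, 19, 19, 3, 3, 11), (4, 1, 1, 5, 27, 22), (4, 1, 1, 7, 7, 10), (4, 1, 1, 10, 10, 19),
   (4, 1, 1, 11, 11, 20), (4, 1, 1, 13, 13, 20), (4, 1, 1, 14, 23, 6), (4, 1, 11, 11, 20, 15),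
   (4, 1, 25, 1, 1, 45), (4, 1, 27, 7, 7, 30), (4, 1, 33, 4, 5, 3), (4, 2, 2, 1, 36, 22),
   (4, 2, 2, 8, 20, 1), (4, 2, 2, 9, 17, 18), (4, 2, 2, 15, 15, 11), (4, 2, 7, 4, 4, 8),
   (4, 2, 12, 6, 23, 12), (4, 2, 21, 10, 10, 15), (4, 2, 39, 1, 1, 4), (4, 3, 3, 4, 22, 1),
   (4, 3, 3, 10, 25, 26), (4, 3, 3, 13, 19, 19), (4, 3, 5, 15, 15, 40), (4, 3, 10, 6, 22, 18),
   (4, 3, 14, 11, 11, 12), (4, 3, 27, 2, 8, 16), (4, 3, 28, 3, 3, 11), (4, 3, 30, 1, 1, 18),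
   (4, 4, 4, 1, 29, 9), (4, 4, 4, 2, 2, 1), (4, 4, 4, 11, 11, 3), (4, 4, 4, 12, 12, 2),
   (4, 4, 4, 16, 17, 35), (4, 4, 10, 5, 5, 23), (4, 4, 11, 11, 11, 24), (4, 4, 25, 4, 7, 35),
   (4, 5, 5, 11, 11, 28), (4, 5, 5, 13, 19, 9), (4, 5, 5, 16, 17, 4), (4, 5, 8, 2, 2, 15),
   (4, 5, 16, 10, 10, 11), (4, 5, 18, 2, 2, 20), (4, 6, 6, 5, 5, 24), (4, 6, 6, 7, 12, 15),
   (4, 6, 24, 3, 9, 21), (4, 7, 7, 1, 1, 5), (4, 7, 7, 7, 15, 51), (4, 7, 7, 10, 19, 11),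
   (4, 7, 7, 11, 11, 2), (4, 7, 7, 13, 13, 10), (4, 7, 18, 6, 6, 24), (4, 7, 28, 4, 4, 19),
   (4, 8, 8, 4, 21, 14), (4, 8, 8, 10, 14, 4), (4, 8, 18, 2, 2, 14), (4, 9, 9, 7, 7, 44),
   (4, 9, 17, 5, 5, 14), (4, 10, 10, 9, 14, 23), (4, 10, 10, 10, 10, 1), (4, 10, 15, 8, 8, 19),
   (4, 11, 11, 3, 14, 12), (4, 11, 11, 5, 16, 12), (4, 11, 11, 6, 6, 8), (4, 11, 18, 1, 1, 12),
   (4, 13, 13, 7, 7, 1), (4, 13, 17, 2, 10, 29), (4, 13, 18, 4, 7, 22), (4, 14, 14, 1, 4, 18),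
   (4, 14, 14, 4, 9, 8), (4, 14, 23, 1, 1, 6), (4, 15, 15, 1, 9, 21), (4, 15, 15, 4, 4, 33),
   (4, 15, 15, 6, 6, 14), (4, 17, 17, 1, 1, 30), (4, 17, 17, 3, 5, 9), (5, 1, 1, 7, 7, 16),
   (5, 1, 1, 11, 11, 27), (5, 1, 1, 15, 15, 15), (5, 1, 6, 14, 14, 30), (5, 1, 8, 13, 13, 38),
   (5, 1, 12, 12, 12, 21), (5, 1, 13, 7, 12, 21), (5, 1, 15, 3, 3, 10), (5, 1, 21, 2, 2, 6),
   (5, 1, 21, 3, 16, 19), (5, 1, 23, 8, 8, 10), (5, 1, 25, 3, 10, 35), (5, 1, 29, 4, 4, 9),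
   (5, 2, 2, 1, 20, 23), (5, 2, 2, 3, 3, 6), (5, 2, 2, 7, 12, 15), (5, 2, 2, 13, 13, 17),
   (5, 2, 2, 15, 16, 9), (5, 2, 20, 7, 12, 1), (5, 3, 3, 2, 33, 25), (5, 3, 3, 6, 28, 21),
   (5, 3, 3, 9, 21, 10), (5, 3, 3, 10, 10, 24), (5, 3, 3, 18, 18, 28), (5, 3, 6, 11, 20, 31),
   (5, 3, 18, 1, 17, 40), (5, 3, 26, 1, 1, 19), (5, 4, 4, 7, 22, 5), (5, 4, 4, 15, 15, 33),
   (5, 4, 24, 1, 11, 51), (5, 5, 5, 1, 1, 25), (5, 5, 5, 7, 24, 18), (5, 5, 5, 10, 10, 2),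
   (5, 5, 5, 15, 15, 6), (5, 5, 5, 16, 16, 9), (5, 5, 22, 2, 2, 2), (5, 5, 26, 1, 8, 36),
   (5, 6, 6, 1, 18, 25), (5, 6, 6, 7, 7, 15), (5, 6, 15, 2, 10, 44), (5, 7, 7, 4, 13, 29),
   (5, 7, 7, 14, 14, 4)]

/-- Part of the packing. -/
def cp4 : List (ℕ × ℕ × ℕ × ℕ × ℕ × ℕ) :=
  [(5, 7, 18, 8, 8, 23), (5, 7, 22, 4, 4, 5), (5, 7, 23, 2, 9, 39), (5, 8, 8, 5, 8, 15),
   (5, 8, 16, 9, 9, 2), (5, 9, 9, 3, 19, 10), (5, 9, 10, 8, 8, 22), (5, 9, 11, 6, 6, 4),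
   (5, 11, 11, 7, 7, 34), (5, 12, 12, 1, 12, 21), (5, 12, 12, 4, 4, 30),
   (5, 12, 12, 7, 11, 12), (5, 12, 13, 2, 2, 7), (5, 12, 20, 2, 2, 4), (5, 13, 19, 3, 3, 20),
   (5, 13, 20, 3, 3, 22), (5, 14, 24, 1, 3, 18), (5, 15, 15, 2, 2, 26), (5, 15, 15, 3, 5, 40),
   (5, 15, 15, 3, 6, 6), (5, 16, 16, 4, 4, 8), (5, 17, 17, 3, 3, 37), (6, 1, 1, 2, 30, 20),
   (6, 1, 1, 7, 7, 24), (6, 1, 1, 11, 11, 29), (6, 1, 1, 15, 15, 30), (6, 1, 26, 4, 4, 31),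
   (6, 1, 26, 7, 7, 15), (6, 2, 2, 3, 34, 7), (6, 2, 2, 12, 20, 4), (6, 2, 2, 18, 18, 12),
   (6, 2, 16, 6, 15, 49), (6, 2, 21, 5, 5, 12), (6, 2, 27, 1, 1, 28), (6, 2, 33, 2, 3, 12),
   (6, 3, 3, 3, 28, 11), (6, 3, 3, 10, 10, 9), (6, 4, 4, 1, 26, 31), (6, 4, 22, 7, 7, 9),
   (6, 4, 32, 1, 3, 35), (6, 5, 5, 4, 26, 21), (6, 5, 5, 5, 24, 11), (6, 5, 5, 9, 10, 17),
   (6, 6, 6, 2, 19, 31), (6, 6, 6, 7, 18, 24), (6, 6, 6, 14, 14, 21), (6, 6, 13, 8, 8, 19),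
   (6, 7, 7, 1, 1, 11), (6, 7, 7, 3, 24, 6), (6, 7, 7, 11, 11, 34), (6, 7, 7, 13, 13, 4),
   (6, 8, 8, 6, 13, 19), (6, 8, 8, 11, 11, 9), (6, 8, 8, 12, 12, 30), (6, 9, 9, 1, 1, 15),
   (6, 9, 21, 3, 3, 10), (6, 10, 10, 7, 7, 12), (6, 10, 10, 9, 9, 14), (6, 10, 17, 1, 1, 39),
   (6, 11, 11, 4, 11, 24), (6, 11, 20, 4, 4, 11), (6, 12, 12, 2, 14, 18),
   (6, 13, 13, 1, 1, 20), (6, 13, 13, 3, 3, 18), (6, 13, 13, 4, 4, 25), (6, 15, 18, 2, 6, 2),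
   (6, 17, 17, 2, 2, 14), (6, 17, 17, 3, 3, 12), (6, 18, 18, 2, 3, 14), (7, 1, 1, 8, 8, 19),
   (7, 1, 1, 9, 9, 18), (7, 1, 1, 12, 12, 20), (7, 1, 1, 13, 13, 15), (7, 1, 1, 17, 17, 30),
   (7, 2, 2, 5, 21, 10), (7, 2, 22, 7, 8, 30), (7, 2, 30, 1, 1, 20), (7, 3, 3, 10, 10, 32),
   (7, 3, 3, 13, 13, 28), (7, 3, 14, 8, 8, 6), (7, 3, 27, 5, 5, 2), (7, 4, 4, 2, 17, 22),
   (7, 4, 4, 6, 26, 2), (7, 4, 4, 11, 11, 6), (7, 4, 4, 13, 13, 24), (7, 5, 5, 5, 25, 30),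
   (7, 5, 5, 7, 16, 14), (7, 5, 5, 9, 17, 14), (7, 6, 6, 5, 5, 3), (7, 6, 6, 7, 18, 15),
   (7, 7, 7, 10, 10, 11), (7, 7, 7, 12, 12, 10), (7, 7, 15, 7, 7, 51), (7, 7, 16, 5, 5, 14),
   (7, 8, 8, 3, 14, 6), (7, 8, 8, 9, 10, 22), (7, 8, 14, 3, 3, 8), (7, 9, 9, 3, 18, 23),
   (7, 9, 9, 7, 7, 45), (7, 10, 10, 9, 9, 23), (7, 11, 11, 6, 11, 27), (7, 11, 11, 7, 7, 2),
   (7, 11, 11, 8, 8, 13), (7, 12, 12, 1, 14, 35), (7, 12, 12, 3, 3, 8), (7, 12, 17, 2, 7, 31),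
   (7, 13, 13, 1, 8, 38), (7, 14, 14, 1, 6, 30), (7, 15, 16, 1, 6, 5), (7, 15, 16, 2, 2, 9),
   (7, 17, 17, 2, 3, 17), (7, 17, 17, 3, 3, 3), (8, 1, 1, 3, 30, 18), (8, 1, 1, 13, 13, 9),
   (8, 1, 1, 14, 14, 17), (8, 1, 22, 4, 4, 15), (8, 1, 23, 2, 2, 37), (8, 2, 2, 5, 5, 10),
   (8, 2, 2, 7, 28, 20), (8, 2, 2, 15, 15, 25), (8, 2, 19, 6, 6, 31), (8, 3, 3, 10, 22, 13),
   (8, 3, 27, 4, 4, 24), (8, 4, 4, 1, 22, 15), (8, 5, 5, 2, 21, 12), (8, 5, 18, 1, 1, 5),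
   (8, 5, 27, 2, 2, 14), (8, 6, 6, 5, 11, 26), (8, 7, 7, 4, 4, 5), (8, 7, 7, 9, 9, 45),
   (8, 7, 7, 11, 11, 5), (8, 7, 18, 2, 2, 19), (8, 8, 8, 7, 7, 2), (8, 9, 9, 9, 9, 3),
   (8, 11, 11, 1, 1, 7), (8, 12, 12, 1, 11, 17), (8, 13, 13, 3, 3, 28), (8, 13, 13, 6, 6, 3),
   (8, 14, 14, 4, 5, 30), (8, 15, 15, 3, 3, 26)]

/-- Part of the packing. -/
def cp5 : List (ℕ × ℕ × ℕ × ℕ × ℕ × ℕ) :=
  [(9, 1, 1, 2, 2, 5), (9, 1, 1, 3, 23, 38), (9, 1, 1, 8, 8, 3), (9, 1, 1, 9, 9, 29),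
   (9, 1, 12, 11, 11, 3), (9, 1, 20, 8, 8, 13), (9, 1, 22, 3, 12, 26), (9, 2, 2, 1, 31, 4),
   (9, 2, 2, 3, 21, 27), (9, 2, 10, 6, 15, 42), (9, 3, 3, 1, 6, 19), (9, 3, 3, 8, 8, 27),
   (9, 3, 3, 11, 18, 28), (9, 3, 3, 13, 13, 18), (9, 4, 4, 1, 1, 13), (9, 4, 4, 4, 23, 16),
   (9, 4, 4, 5, 5, 21), (9, 5, 5, 1, 1, 18), (9, 5, 5, 2, 2, 25), (9, 5, 5, 5, 5, 24),
   (9, 5, 27, 1, 1, 22), (9, 6, 6, 11, 11, 8), (9, 7, 7, 7, 7, 34), (9, 7, 7, 8, 8, 2),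
   (9, 7, 12, 1, 13, 21), (9, 8, 8, 5, 5, 22), (9, 9, 9, 2, 2, 12), (9, 9, 9, 4, 4, 22),
   (9, 9, 18, 5, 5, 47), (9, 10, 10, 5, 12, 6), (9, 11, 11, 2, 2, 20), (9, 11, 11, 6, 9, 9),
   (9, 11, 11, 8, 8, 4), (9, 12, 12, 6, 6, 22), (9, 14, 14, 1, 1, 17), (9, 15, 15, 1, 1, 30),
   (9, 15, 15, 2, 2, 11), (9, 15, 15, 3, 3, 17), (9, 16, 16, 3, 3, 6), (10, 1, 1, 2, 27, 29),
   (10, 1, 1, 9, 9, 18), (10, 1, 1, 10, 10, 25), (10, 1, 1, 15, 19, 26),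
   (10, 1, 4, 14, 14, 18), (10, 1, 20, 2, 2, 16), (10, 1, 27, 3, 6, 5), (10, 2, 2, 3, 29, 24),
   (10, 2, 2, 7, 18, 17), (10, 2, 23, 3, 6, 20), (10, 3, 3, 12, 12, 8), (10, 3, 3, 14, 14, 12),
   (10, 3, 21, 2, 2, 27), (10, 3, 23, 1, 1, 38), (10, 4, 4, 3, 14, 14), (10, 4, 4, 12, 12, 30),
   (10, 5, 5, 3, 3, 16), (10, 5, 5, 5, 5, 30), (10, 5, 5, 7, 7, 37), (10, 5, 21, 2, 2, 10),
   (10, 6, 6, 2, 2, 48), (10, 6, 6, 9, 11, 4), (10, 7, 7, 2, 2, 14), (10, 7, 7, 7, 7, 34),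
   (10, 7, 7, 10, 10, 11), (10, 9, 9, 1, 1, 26), (10, 11, 11, 4, 4, 7), (10, 11, 11, 6, 6, 28),
   (10, 13, 13, 2, 7, 19), (10, 15, 15, 1, 1, 16), (11, 1, 1, 2, 20, 19),
   (11, 1, 1, 3, 26, 19), (11, 1, 1, 4, 4, 2), (11, 1, 1, 8, 24, 15), (11, 1, 1, 17, 17, 4),
   (11, 1, 12, 11, 11, 4), (11, 1, 18, 6, 6, 25), (11, 2, 2, 1, 23, 37), (11, 2, 2, 3, 28, 27),
   (11, 2, 2, 4, 4, 27), (11, 2, 2, 5, 22, 2), (11, 2, 20, 7, 7, 8), (11, 3, 3, 1, 16, 3),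
   (11, 3, 3, 1, 26, 12), (11, 3, 3, 9, 9, 34), (11, 3, 16, 2, 15, 12), (11, 3, 18, 7, 7, 5),
   (11, 4, 4, 5, 20, 25), (11, 4, 4, 9, 17, 3), (11, 4, 13, 7, 7, 29), (11, 4, 22, 3, 3, 1),
   (11, 5, 5, 3, 3, 6), (11, 5, 5, 5, 5, 6), (11, 5, 11, 6, 6, 26), (11, 7, 7, 9, 9, 44),
   (11, 7, 7, 11, 11, 1), (11, 8, 20, 2, 2, 1), (11, 11, 11, 1, 12, 13),
   (11, 11, 11, 5, 5, 27), (11, 12, 12, 4, 4, 2), (11, 13, 13, 1, 1, 9), (11, 15, 15, 3, 3, 9),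
   (11, 16, 16, 1, 1, 16), (12, 1, 1, 6, 6, 18), (12, 1, 1, 10, 17, 39),
   (12, 1, 1, 11, 18, 12), (12, 2, 2, 1, 20, 16), (12, 2, 2, 3, 3, 8), (12, 2, 2, 7, 23, 18),
   (12, 2, 2, 11, 11, 21), (12, 2, 20, 1, 1, 19), (12, 3, 3, 1, 25, 13), (12, 3, 3, 6, 6, 18),
   (12, 3, 3, 8, 14, 9), (12, 3, 14, 4, 4, 14), (12, 4, 4, 6, 6, 7), (12, 4, 4, 9, 9, 22),
   (12, 4, 4, 11, 15, 21), (12, 5, 5, 8, 8, 20), (12, 5, 8, 10, 10, 4), (12, 6, 6, 2, 2, 21),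
   (12, 7, 7, 2, 2, 2), (12, 7, 8, 1, 1, 9), (12, 7, 12, 6, 6, 15), (12, 8, 8, 1, 1, 16),
   (12, 9, 9, 3, 3, 33), (12, 9, 9, 8, 8, 8), (12, 9, 10, 5, 5, 17), (12, 10, 10, 5, 5, 2),
   (12, 11, 11, 5, 5, 11), (12, 13, 13, 1, 1, 15), (12, 13, 13, 2, 2, 17),
   (12, 14, 14, 1, 4, 39), (12, 14, 14, 3, 4, 6), (13, 1, 1, 1, 30, 35), (13, 1, 1, 4, 4, 11),
   (13, 1, 1, 13, 13, 20), (13, 1, 16, 3, 3, 2), (13, 2, 2, 7, 21, 18), (13, 2, 2, 8, 18, 14),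
   (13, 2, 2, 12, 13, 7)]

/-- Part of the packing. -/
def cp6 : List (ℕ × ℕ × ℕ × ℕ × ℕ × ℕ) :=
  [(13, 2, 2, 15, 15, 4), (13, 2, 17, 4, 4, 22), (13, 3, 3, 1, 24, 16), (13, 3, 3, 2, 2, 35),
   (13, 4, 4, 1, 24, 30), (13, 5, 5, 1, 1, 1), (13, 5, 5, 3, 21, 23), (13, 5, 5, 4, 4, 7),
   (13, 5, 8, 8, 8, 17), (13, 6, 6, 1, 1, 19), (13, 6, 6, 10, 10, 15), (13, 7, 7, 3, 14, 12),
   (13, 7, 7, 5, 5, 37), (13, 9, 9, 1, 15, 4), (13, 9, 17, 2, 2, 19), (13, 10, 10, 6, 7, 10),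
   (13, 11, 11, 4, 4, 3), (13, 12, 12, 1, 7, 37), (14, 1, 1, 5, 18, 5), (14, 1, 1, 7, 21, 4),
   (14, 2, 2, 7, 20, 20), (14, 4, 4, 3, 3, 1), (14, 4, 13, 8, 8, 21), (14, 4, 20, 4, 4, 1),
   (14, 5, 15, 5, 5, 20), (14, 6, 6, 1, 1, 4), (14, 6, 21, 2, 2, 4), (14, 7, 7, 2, 16, 24),
   (14, 8, 8, 7, 7, 43), (14, 10, 10, 3, 3, 31), (14, 12, 12, 1, 1, 20),
   (14, 13, 13, 1, 5, 17), (14, 13, 13, 2, 2, 33), (14, 13, 13, 3, 3, 8),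
   (14, 14, 14, 1, 1, 15), (14, 14, 14, 2, 2, 2), (15, 1, 1, 1, 25, 45), (15, 1, 1, 4, 23, 12),
   (15, 1, 1, 5, 24, 4), (15, 1, 1, 6, 6, 17), (15, 1, 1, 11, 11, 7), (15, 1, 3, 14, 14, 36),
   (15, 2, 2, 1, 1, 13), (15, 2, 2, 2, 2, 2), (15, 2, 2, 3, 3, 3), (15, 2, 2, 6, 6, 1),
   (15, 2, 2, 6, 22, 5), (15, 3, 3, 1, 1, 12), (15, 3, 3, 1, 23, 45), (15, 5, 5, 11, 11, 18),
   (15, 6, 6, 2, 16, 24), (15, 6, 6, 4, 4, 7), (15, 7, 16, 4, 4, 16), (15, 8, 8, 8, 8, 8),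
   (15, 9, 9, 6, 6, 6), (15, 10, 10, 1, 1, 25), (15, 10, 10, 3, 3, 9), (15, 11, 11, 2, 7, 33),
   (15, 13, 13, 1, 1, 20), (16, 1, 1, 1, 1, 21), (16, 1, 1, 9, 19, 12), (16, 1, 9, 1, 1, 10),
   (16, 2, 2, 1, 21, 6), (16, 2, 2, 5, 18, 19), (16, 2, 2, 9, 9, 12), (16, 3, 3, 3, 3, 24),
   (16, 3, 3, 8, 17, 8), (16, 4, 4, 5, 5, 7), (16, 4, 4, 6, 17, 14), (16, 5, 5, 1, 1, 13),
   (16, 5, 5, 5, 5, 6), (16, 6, 6, 2, 2, 1), (16, 7, 7, 6, 6, 15), (16, 7, 18, 2, 2, 17),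
   (16, 8, 8, 3, 3, 27), (16, 9, 9, 5, 5, 22), (16, 9, 11, 5, 6, 7), (16, 10, 10, 2, 9, 15),
   (16, 10, 10, 3, 3, 24), (16, 12, 12, 1, 5, 17), (17, 1, 1, 8, 8, 16), (17, 1, 1, 9, 9, 26),
   (17, 1, 20, 2, 2, 23), (17, 2, 2, 3, 23, 6), (17, 2, 2, 7, 7, 2), (17, 3, 3, 1, 5, 32),
   (17, 3, 3, 1, 21, 28), (17, 3, 3, 11, 11, 16), (17, 3, 21, 2, 2, 10), (17, 4, 4, 1, 1, 20),
   (17, 4, 4, 3, 17, 22), (17, 4, 4, 7, 7, 5), (17, 5, 5, 5, 5, 30), (17, 5, 15, 3, 6, 30),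
   (17, 5, 16, 3, 3, 30), (17, 6, 6, 3, 3, 18), (17, 8, 8, 3, 10, 43), (17, 8, 8, 7, 7, 5),
   (17, 9, 9, 1, 1, 18), (17, 11, 11, 1, 1, 29), (17, 12, 12, 2, 2, 3), (17, 13, 13, 1, 3, 27),
   (18, 1, 1, 2, 2, 19), (18, 1, 1, 3, 3, 14), (18, 1, 1, 4, 23, 5), (18, 1, 1, 7, 8, 9),
   (18, 1, 1, 10, 16, 19), (18, 1, 5, 3, 3, 32), (18, 2, 2, 3, 3, 14), (18, 4, 4, 9, 9, 15),
   (18, 5, 5, 5, 5, 24), (18, 5, 5, 6, 6, 3), (18, 6, 6, 1, 1, 18), (18, 6, 6, 6, 8, 12),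
   (18, 9, 9, 1, 1, 29), (18, 11, 11, 1, 1, 27), (19, 1, 1, 1, 9, 10), (19, 1, 1, 5, 5, 13),
   (19, 1, 1, 6, 6, 5), (19, 1, 1, 7, 16, 3), (19, 2, 2, 1, 1, 34), (19, 2, 2, 6, 6, 21),
   (19, 2, 2, 7, 7, 14), (19, 3, 3, 2, 2, 14), (19, 3, 3, 3, 3, 24), (19, 3, 3, 4, 4, 1),
   (19, 5, 5, 1, 17, 7), (19, 5, 5, 4, 10, 21), (19, 6, 6, 2, 11, 20), (19, 7, 12, 2, 2, 15),
   (19, 9, 9, 4, 4, 22), (19, 10, 10, 3, 3, 18), (19, 11, 11, 1, 1, 20), (20, 1, 1, 1, 24, 38),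
   (20, 1, 1, 4, 4, 20), (20, 1, 1, 6, 6, 19), (20, 2, 2, 1, 1, 12), (20, 3, 3, 1, 15, 10),
   (20, 3, 3, 3, 18, 6), (20, 3, 3, 5, 5, 6)]

/-- Part of the packing. -/
def cp7 : List (ℕ × ℕ × ℕ × ℕ × ℕ × ℕ) :=
  [(20, 5, 5, 4, 4, 20), (20, 8, 8, 1, 1, 3), (20, 9, 9, 1, 1, 18), (20, 9, 9, 2, 6, 18),
   (20, 9, 9, 4, 5, 6), (20, 10, 10, 1, 4, 40), (21, 1, 1, 2, 2, 12), (21, 1, 1, 9, 9, 15),
   (21, 2, 2, 6, 6, 48), (21, 3, 3, 1, 1, 14), (21, 3, 3, 5, 5, 16), (21, 4, 4, 1, 14, 14),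
   (21, 5, 5, 6, 6, 24), (21, 5, 9, 6, 6, 15), (21, 6, 6, 1, 1, 18), (21, 7, 7, 3, 6, 15),
   (21, 7, 7, 5, 5, 14), (21, 9, 9, 4, 4, 8), (21, 10, 10, 1, 1, 19), (21, 10, 10, 3, 3, 18),
   (21, 11, 11, 1, 1, 5), (22, 1, 1, 2, 2, 34), (22, 1, 1, 5, 5, 1), (22, 2, 2, 1, 19, 8),
   (22, 3, 3, 2, 2, 3), (22, 5, 5, 6, 6, 24), (22, 8, 8, 1, 1, 19), (22, 9, 9, 3, 3, 39),
   (22, 10, 10, 1, 1, 14), (23, 1, 1, 4, 17, 49), (23, 1, 1, 11, 11, 18), (23, 2, 2, 1, 1, 19),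
   (23, 3, 3, 3, 14, 57), (23, 5, 5, 6, 6, 31), (23, 6, 6, 1, 11, 5), (23, 6, 6, 5, 5, 17),
   (23, 8, 8, 1, 7, 1), (23, 9, 9, 1, 4, 52), (23, 11, 11, 1, 1, 1), (24, 1, 1, 3, 3, 12),
   (24, 2, 2, 2, 2, 1), (24, 2, 2, 3, 3, 35), (24, 2, 2, 5, 5, 25), (24, 3, 3, 3, 13, 39),
   (24, 4, 4, 1, 1, 11), (24, 4, 4, 2, 2, 26), (24, 5, 8, 4, 4, 16), (24, 6, 6, 5, 5, 8),
   (24, 9, 9, 1, 1, 21), (24, 9, 9, 2, 2, 15), (25, 1, 1, 3, 15, 53), (25, 1, 1, 7, 7, 11),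
   (25, 1, 6, 3, 3, 19), (25, 3, 3, 2, 2, 8), (25, 3, 3, 7, 7, 6), (25, 5, 5, 2, 2, 10),
   (25, 5, 5, 2, 10, 2), (25, 7, 7, 1, 1, 24), (25, 8, 8, 1, 4, 17), (25, 9, 9, 1, 1, 20),
   (26, 1, 1, 2, 2, 14), (26, 1, 1, 5, 5, 18), (26, 1, 1, 7, 11, 28), (26, 2, 2, 4, 13, 4),
   (26, 2, 2, 5, 8, 15), (26, 3, 3, 1, 13, 9), (26, 4, 4, 1, 1, 2), (26, 4, 4, 2, 7, 8),
   (26, 4, 4, 3, 8, 30), (26, 5, 7, 4, 4, 9), (26, 7, 7, 1, 1, 16), (27, 1, 1, 1, 1, 21),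
   (27, 1, 1, 7, 7, 5), (27, 1, 1, 9, 9, 24), (27, 2, 2, 3, 12, 21), (27, 2, 10, 3, 5, 33),
   (27, 3, 3, 6, 6, 21), (27, 3, 3, 7, 7, 9), (27, 4, 4, 5, 5, 31), (27, 7, 7, 1, 1, 10),
   (28, 1, 1, 2, 12, 19), (28, 1, 1, 4, 4, 14), (28, 4, 10, 2, 3, 33), (28, 6, 6, 2, 5, 45),
   (28, 7, 7, 1, 1, 7), (29, 2, 2, 2, 12, 4), (29, 2, 2, 5, 8, 3), (29, 4, 4, 5, 5, 8),
   (29, 6, 6, 3, 3, 4), (30, 1, 1, 5, 5, 25), (30, 3, 3, 1, 10, 3), (30, 3, 3, 2, 7, 16),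
   (30, 3, 3, 4, 6, 7), (30, 6, 6, 1, 3, 17), (30, 7, 7, 1, 2, 5), (31, 1, 1, 6, 6, 25),
   (31, 2, 2, 4, 4, 1), (31, 3, 3, 4, 4, 26), (31, 4, 4, 2, 5, 31), (31, 4, 4, 3, 3, 12),
   (31, 5, 5, 3, 3, 16), (32, 2, 2, 1, 1, 5), (32, 2, 2, 5, 5, 18), (32, 3, 3, 2, 2, 6),
   (32, 4, 4, 2, 5, 3), (32, 4, 4, 3, 3, 28), (32, 5, 5, 1, 1, 25), (32, 5, 5, 1, 4, 10),
   (32, 6, 6, 1, 2, 28), (33, 1, 1, 3, 8, 49), (33, 1, 1, 6, 6, 10), (33, 5, 5, 1, 3, 13),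
   (33, 6, 6, 1, 1, 10), (34, 1, 1, 2, 9, 20), (34, 3, 3, 2, 4, 17), (34, 4, 4, 1, 1, 9),
   (34, 5, 5, 1, 1, 10), (35, 1, 1, 2, 7, 8), (35, 1, 1, 5, 5, 14), (35, 3, 3, 2, 2, 23),
   (35, 4, 4, 1, 1, 25), (35, 5, 5, 1, 1, 19), (36, 1, 1, 1, 7, 40), (36, 3, 3, 2, 2, 8),
   (36, 3, 3, 2, 3, 2), (37, 3, 3, 1, 1, 10), (37, 4, 4, 1, 1, 15), (38, 1, 1, 3, 3, 11),
   (38, 3, 3, 1, 1, 22), (39, 1, 1, 3, 3, 13), (39, 3, 3, 1, 1, 31), (40, 1, 1, 1, 2, 2),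
   (40, 1, 1, 2, 2, 1), (40, 2, 2, 1, 1, 8), (41, 2, 2, 1, 1, 20), (42, 1, 1, 1, 1, 28),
   (43, 1, 1, 1, 1, 34)]

/-- The packing. -/
def copies : List (ℕ × ℕ × ℕ × ℕ × ℕ × ℕ) :=
  cp0 ++ (cp1 ++ (cp2 ++ (cp3 ++ (cp4 ++ (cp5 ++ (cp6 ++ (cp7)))))))

/-! ### Tries -/

/-- Binary tries. -/
inductive T : Type
  | leaf (v : ℕ) : T
  | node (l r : T) : T

/-- Evaluation of the head of a trie. -/
def force {β : Type} (t : T) (k : T → β) : β :=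
  match t with
  | .leaf v => k (.leaf v)
  | .node l r => k (.node l r)

theorem force_eq {β : Type} (t : T) (k : T → β) : force t k = k t := by cases t <;> rfl

/-- Add the weight `w` at the index `i`. -/
def push : T → ℕ → ℕ → T
  | .leaf v, _, w => .leaf (v + w)
  | .node l r, i, w =>
    match i % 2 with
    | 0 => force (push l (i / 2) w) fun l' => .node l' r
    | _ + 1 => force (push r (i / 2) w) fun r' => .node l r'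

/-- The sum of the weights times `G`. -/
def val : T → (ℕ → ℤ) → ℤ
  | .leaf v, G => v * G 0
  | .node l r, G => val l (fun i => G (2 * i)) + val r (fun i => G (2 * i + 1))

/-- Full tries of depth `d`. -/
def full : ℕ → T → Prop
  | 0, .leaf _ => True
  | 0, .node _ _ => False
  | _ + 1, .leaf _ => False
  | d + 1, .node l r => full d l ∧ full d r

theorem push_full (t : T) : ∀ (d i w : ℕ), full d t → full d (push t i w) := by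
  induction t with
  | leaf v =>
    intro d i w h
    cases d with
    | zero => exact trivial
    | succ d => exact h.elim
  | node l r hl hr =>
    intro d i w h
    cases d with
    | zero => exact h.elim
    | succ d =>
      unfold push
      rcases i % 2 with _ | j
      · show full (d + 1) (force (push l (i / 2) w) fun l' => .node l' r)
        rw [force_eq]
        exact ⟨hl d _ _ h.1, h.2⟩
      · show full (d + 1) (force (push r (i / 2) w) fun r' => .node l r')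
        rw [force_eq]
        exact ⟨h.1, hr d _ _ h.2⟩

theorem val_push (t : T) : ∀ (d i w : ℕ) (G : ℕ → ℤ), full d t → i < 2 ^ d →
    val (push t i w) G = val t G + w * G i := by
  induction t with
  | leaf v =>
    intro d i w G h hi
    cases d with
    | zero =>
      have hi0 : i = 0 := by
        have : i < 1 := hi
        omega
      subst hi0
      show ((v + w : ℕ) : ℤ) * G 0 = v * G 0 + w * G 0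
      push_cast
      ring
    | succ d => exact h.elim
  | node l r hl hr =>
    intro d i w G h hi
    cases d with
    | zero => exact h.elim
    | succ d =>
      have hi2 : i / 2 < 2 ^ d := by
        rw [pow_succ] at hi
        omega
      unfold push
      rcases h2 : i % 2 with _ | j
      · show val (force (push l (i / 2) w) fun l' => .node l' r) G = _
        rw [force_eq]
        show val (push l (i / 2) w) (fun i => G (2 * i)) + val r (fun i => G (2 * i + 1)) =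
          val l (fun i => G (2 * i)) + val r (fun i => G (2 * i + 1)) + w * G i
        rw [hl d _ _ _ h.1 hi2]
        have h3 : 2 * (i / 2) = i := by omega
        rw [h3]
        ring
      · show val (force (push r (i / 2) w) fun r' => .node l r') G = _
        rw [force_eq]
        show val l (fun i => G (2 * i)) + val (push r (i / 2) w) (fun i => G (2 * i + 1)) =
          val l (fun i => G (2 * i)) + val r (fun i => G (2 * i + 1)) + w * G i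
        rw [hr d _ _ _ h.2 hi2]
        have h3 : 2 * (i / 2) + 1 = i := by omega
        rw [h3]
        ring

/-- The empty trie. -/
def zero : ℕ → T
  | 0 => .leaf 0
  | d + 1 => force (zero d) fun t => .node t t

theorem zero_full (d : ℕ) : full d (zero d) := by
  induction d with
  | zero => exact trivial
  | succ d ih =>
    unfold zero
    rw [force_eq]
    exact ⟨ih, ih⟩

theorem val_zero (d : ℕ) : ∀ G : ℕ → ℤ, val (zero d) G = 0 := by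
  induction d with
  | zero =>
    intro G
    show ((0 : ℕ) : ℤ) * G 0 = 0
    simp
  | succ d ih =>
    intro G
    unfold zero
    rw [force_eq]
    show val (zero d) (fun i => G (2 * i)) + val (zero d) (fun i => G (2 * i + 1)) = 0
    rw [ih, ih, add_zero]

/-- Comparison. -/
def le : T → T → Bool
  | .leaf v, .leaf c => Nat.ble v c
  | .node l r, .node l' r' => le l l' && le r r'
  | .leaf _, .node _ _ => false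
  | .node _ _, .leaf _ => false

theorem val_le (t : T) : ∀ (c : T) (G : ℕ → ℤ), (∀ i, 0 ≤ G i) → le t c = true →
    val t G ≤ val c G := by
  induction t with
  | leaf v =>
    intro c G hG h
    cases c with
    | leaf c =>
      have h1 : v ≤ c := Nat.le_of_ble_eq_true h
      show (v : ℤ) * G 0 ≤ c * G 0
      exact mul_le_mul_of_nonneg_right (by exact_mod_cast h1) (hG 0)
    | node l' r' => exact absurd h Bool.false_ne_true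
  | node l r hl hr =>
    intro c G hG h
    cases c with
    | leaf c => exact absurd h Bool.false_ne_true
    | node l' r' =>
      have h1 : (le l l' && le r r') = true := h
      rw [Bool.and_eq_true] at h1
      exact add_le_add (hl l' _ (fun i => hG _) h1.1) (hr r' _ (fun i => hG _) h1.2)

/-! ### The contributions of the copies -/

/-- The fifteen contributions of a copy. -/
def pushC (t : T) (q d1 d2 e1 e2 w : ℕ) : T :=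
  push (push (push (push (push (push (push (push (push (push (push (push (push (push (push t
    (65 * (q + d2) + d1) w)
    (65 * (q + d1) + d2) w)
    (65 * (q + d1 + d2) + e1) w)
    (65 * (q + d1 + d2) + e2) w)
    (65 * q + (d1 + d2)) w)
    (65 * (q + d2) + (d1 + e1)) w)
    (65 * (q + d2) + (d1 + e2)) w)
    (65 * (q + d1) + (d2 + e1)) w)
    (65 * (q + d1) + (d2 + e2)) w)
    (65 * (q + d1 + d2) + (e1 + e2)) w)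
    (65 * q + (d1 + d2 + e1)) w)
    (65 * q + (d1 + d2 + e2)) w)
    (65 * (q + d2) + (d1 + e1 + e2)) w)
    (65 * (q + d1) + (d2 + e1 + e2)) w)
    (65 * q + (d1 + d2 + e1 + e2)) w

/-- All contributions. -/
def foldC : List (ℕ × ℕ × ℕ × ℕ × ℕ × ℕ) → T → T
  | [], t => t
  | (q, d1, d2, e1, e2, w) :: cs, t => force (pushC t q d1 d2 e1 e2 w) (foldC cs)

/-- One row of the capacities. -/
def capRow (a : ℕ) : ℕ → T → T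
  | 0, t => t
  | b + 1, t => match Nat.blt a b with
    | true => force (push t (64 * a + b) (68 * cap a b)) (capRow a b)
    | false => capRow a b t

/-- The capacities. -/
def capAll : ℕ → T → T
  | 0, t => t
  | a + 1, t => force (capRow a 48 t) (capAll a)

/-- Validity of a copy. -/
def okC (c : ℕ × ℕ × ℕ × ℕ × ℕ × ℕ) : Bool :=
  Nat.ble 1 c.2.1 && Nat.ble 1 c.2.2.1 && Nat.ble 1 c.2.2.2.1 && Nat.ble 1 c.2.2.2.2.1 &&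
    Nat.ble (c.1 + c.2.1 + c.2.2.1 + c.2.2.2.1 + c.2.2.2.2.1) 47

theorem all_ok : copies.all okC = true := by decide +kernel

theorem copies_sum : (copies.map fun c => c.2.2.2.2.2).sum = 19388 := by decide +kernel

theorem compare : le (foldC copies (zero 12)) (capAll 48 (zero 12)) = true := by decide +kernel

theorem copies_ok : ∀ c ∈ copies, 1 ≤ c.2.1 ∧ 1 ≤ c.2.2.1 ∧ 1 ≤ c.2.2.2.1 ∧
    1 ≤ c.2.2.2.2.1 ∧ c.1 + c.2.1 + c.2.2.1 + c.2.2.2.1 + c.2.2.2.2.1 ≤ 47 := by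
  intro c hc
  have h := List.all_eq_true.1 all_ok c hc
  unfold okC at h
  rw [Bool.and_eq_true, Bool.and_eq_true, Bool.and_eq_true, Bool.and_eq_true] at h
  obtain ⟨⟨⟨⟨h1, h2⟩, h3⟩, h4⟩, h5⟩ := h
  exact ⟨Nat.le_of_ble_eq_true h1, Nat.le_of_ble_eq_true h2, Nat.le_of_ble_eq_true h3,
    Nat.le_of_ble_eq_true h4, Nat.le_of_ble_eq_true h5⟩

/-- `G` on the indices `64 a + b`, zero outside `a < b ≤ 47`. -/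
def GG (G : ℕ → ℕ → ℤ) (i : ℕ) : ℤ :=
  if i / 64 < i % 64 ∧ i % 64 ≤ 47 then G (i / 64) (i % 64) else 0

theorem GG_eq (G : ℕ → ℕ → ℤ) (a D : ℕ) (hD : 0 < D) (h : a + D ≤ 47) :
    GG G (65 * a + D) = G a (a + D) := by
  have h1 : (65 * a + D) / 64 = a := by omega
  have h2 : (65 * a + D) % 64 = a + D := by omega
  unfold GG
  rw [h1, h2, if_pos ⟨by omega, h⟩]

theorem GG_eq' (G : ℕ → ℕ → ℤ) (a b : ℕ) (hab : a < b) (h : b ≤ 47) :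
    GG G (64 * a + b) = G a b := by
  have h1 : (64 * a + b) / 64 = a := by omega
  have h2 : (64 * a + b) % 64 = b := by omega
  unfold GG
  rw [h1, h2, if_pos ⟨hab, h⟩]

theorem GG_nonneg (G : ℕ → ℕ → ℤ) (hG : ∀ a b, a < b → b ≤ 47 → 0 ≤ G a b) (i : ℕ) :
    0 ≤ GG G i := by
  unfold GG
  split_ifs with h
  · exact hG _ _ h.1 h.2
  · exact le_rfl

theorem sum_S (c : ℕ × ℕ × ℕ × ℕ × ℕ × ℕ) (G : ℕ → ℕ → ℤ) :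
    ∑ S ∈ (univ : Finset (Finset (Fin 4))).erase ∅, G (sA c S) (sA c S + sD c S) =
      G (c.1 + c.2.2.1) (c.1 + c.2.2.1 + c.2.1) +
      G (c.1 + c.2.1) (c.1 + c.2.1 + c.2.2.1) +
      G (c.1 + c.2.1 + c.2.2.1) (c.1 + c.2.1 + c.2.2.1 + c.2.2.2.1) +
      G (c.1 + c.2.1 + c.2.2.1) (c.1 + c.2.1 + c.2.2.1 + c.2.2.2.2.1) +
      G c.1 (c.1 + (c.2.1 + c.2.2.1)) +
      G (c.1 + c.2.2.1) (c.1 + c.2.2.1 + (c.2.1 + c.2.2.2.1)) +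
      G (c.1 + c.2.2.1) (c.1 + c.2.2.1 + (c.2.1 + c.2.2.2.2.1)) +
      G (c.1 + c.2.1) (c.1 + c.2.1 + (c.2.2.1 + c.2.2.2.1)) +
      G (c.1 + c.2.1) (c.1 + c.2.1 + (c.2.2.1 + c.2.2.2.2.1)) +
      G (c.1 + c.2.1 + c.2.2.1) (c.1 + c.2.1 + c.2.2.1 + (c.2.2.2.1 + c.2.2.2.2.1)) +
      G c.1 (c.1 + (c.2.1 + c.2.2.1 + c.2.2.2.1)) +
      G c.1 (c.1 + (c.2.1 + c.2.2.1 + c.2.2.2.2.1)) +
      G (c.1 + c.2.2.1) (c.1 + c.2.2.1 + (c.2.1 + c.2.2.2.1 + c.2.2.2.2.1)) +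
      G (c.1 + c.2.1) (c.1 + c.2.1 + (c.2.2.1 + c.2.2.2.1 + c.2.2.2.2.1)) +
      G c.1 (c.1 + (c.2.1 + c.2.2.1 + c.2.2.2.1 + c.2.2.2.2.1)) := by
  rw [Pool.Agent.HJ4.univ_erase]
  iterate 14 rw [sum_insert (by decide)]
  rw [sum_singleton]
  simp [sA, sD]
  ring

theorem val_pushC (t : T) (h : full 12 t) (G : ℕ → ℕ → ℤ) (c : ℕ × ℕ × ℕ × ℕ × ℕ × ℕ)
    (hc : 1 ≤ c.2.1 ∧ 1 ≤ c.2.2.1 ∧ 1 ≤ c.2.2.2.1 ∧
      1 ≤ c.2.2.2.2.1 ∧ c.1 + c.2.1 + c.2.2.1 + c.2.2.2.1 + c.2.2.2.2.1 ≤ 47) :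
    full 12 (pushC t c.1 c.2.1 c.2.2.1 c.2.2.2.1 c.2.2.2.2.1 c.2.2.2.2.2) ∧
    val (pushC t c.1 c.2.1 c.2.2.1 c.2.2.2.1 c.2.2.2.2.1 c.2.2.2.2.2) (GG G) =
      val t (GG G) + (c.2.2.2.2.2 : ℤ) *
        ∑ S ∈ (univ : Finset (Finset (Fin 4))).erase ∅, G (sA c S) (sA c S + sD c S) := by
  obtain ⟨q, d1, d2, e1, e2, w⟩ := c
  obtain ⟨h1, h2, h3, h4, h5⟩ := hc
  simp only at h1 h2 h3 h4 h5
  have key : ∀ (t : T) (a D : ℕ), full 12 t → 0 < D → a + D ≤ 47 →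
      full 12 (push t (65 * a + D) w) ∧
        val (push t (65 * a + D) w) (GG G) = val t (GG G) + w * G a (a + D) := by
    intro t a D ht hD haD
    refine ⟨push_full t 12 _ _ ht, ?_⟩
    rw [val_push t 12 _ _ _ ht (by omega), GG_eq G a D hD haD]
  rw [sum_S]
  unfold pushC
  simp only
  have k1 := key t (q + d2) d1 h (by omega) (by omega)
  have k2 := key _ (q + d1) d2 k1.1 (by omega) (by omega)
  have k3 := key _ (q + d1 + d2) e1 k2.1 (by omega) (by omega)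
  have k4 := key _ (q + d1 + d2) e2 k3.1 (by omega) (by omega)
  have k5 := key _ q (d1 + d2) k4.1 (by omega) (by omega)
  have k6 := key _ (q + d2) (d1 + e1) k5.1 (by omega) (by omega)
  have k7 := key _ (q + d2) (d1 + e2) k6.1 (by omega) (by omega)
  have k8 := key _ (q + d1) (d2 + e1) k7.1 (by omega) (by omega)
  have k9 := key _ (q + d1) (d2 + e2) k8.1 (by omega) (by omega)
  have k10 := key _ (q + d1 + d2) (e1 + e2) k9.1 (by omega) (by omega)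
  have k11 := key _ q (d1 + d2 + e1) k10.1 (by omega) (by omega)
  have k12 := key _ q (d1 + d2 + e2) k11.1 (by omega) (by omega)
  have k13 := key _ (q + d2) (d1 + e1 + e2) k12.1 (by omega) (by omega)
  have k14 := key _ (q + d1) (d2 + e1 + e2) k13.1 (by omega) (by omega)
  have k15 := key _ q (d1 + d2 + e1 + e2) k14.1 (by omega) (by omega)
  refine ⟨k15.1, ?_⟩
  rw [k15.2, k14.2, k13.2, k12.2, k11.2, k10.2, k9.2, k8.2, k7.2, k6.2, k5.2, k4.2, k3.2, k2.2,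
    k1.2]
  ring

theorem val_foldC (G : ℕ → ℕ → ℤ) (l : List (ℕ × ℕ × ℕ × ℕ × ℕ × ℕ)) :
    ∀ t : T, full 12 t → (∀ c ∈ l, 1 ≤ c.2.1 ∧ 1 ≤ c.2.2.1 ∧ 1 ≤ c.2.2.2.1 ∧
      1 ≤ c.2.2.2.2.1 ∧ c.1 + c.2.1 + c.2.2.1 + c.2.2.2.1 + c.2.2.2.2.1 ≤ 47) →
    val (foldC l t) (GG G) = val t (GG G) + (l.map fun c => (c.2.2.2.2.2 : ℤ) *
      ∑ S ∈ (univ : Finset (Finset (Fin 4))).erase ∅, G (sA c S) (sA c S + sD c S)).sum := by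
  induction l with
  | nil =>
    intro t _ _
    show val t (GG G) = val t (GG G) + 0
    rw [add_zero]
  | cons c l ih =>
    intro t ht hl
    have h1 := val_pushC t ht G c (hl c List.mem_cons_self)
    have h2 : foldC (c :: l) t =
        force (pushC t c.1 c.2.1 c.2.2.1 c.2.2.2.1 c.2.2.2.2.1 c.2.2.2.2.2) (foldC l) := rfl
    rw [h2, force_eq, ih _ h1.1 (fun c hc => hl c (List.mem_cons_of_mem _ hc)), h1.2,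
      List.map_cons, List.sum_cons, add_assoc]

theorem val_capRow (G : ℕ → ℕ → ℤ) (a : ℕ) (b : ℕ) : ∀ t : T, full 12 t → a ≤ 47 → b ≤ 48 →
    full 12 (capRow a b t) ∧ val (capRow a b t) (GG G) = val t (GG G) +
      ∑ j ∈ range b, if a < j then ((68 * cap a j : ℕ) : ℤ) * G a j else 0 := by
  induction b with
  | zero =>
    intro t ht _ _
    refine ⟨ht, ?_⟩
    rw [range_zero, sum_empty, add_zero]
    rfl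
  | succ b ih =>
    intro t ht ha hb
    unfold capRow
    rw [sum_range_succ]
    rcases h : Nat.blt a b with _ | _
    · have h1 : ¬ a < b := by
        intro h2
        have h3 : Nat.blt a b = true := by rw [Nat.blt_eq]; exact h2
        rw [h] at h3
        exact Bool.false_ne_true h3
      rw [if_neg h1, add_zero]
      exact ih t ht ha (by omega)
    · have h1 : a < b := by rw [← Nat.blt_eq]; exact h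
      have h2 := push_full t 12 (64 * a + b) (68 * cap a b) ht
      have h3 := ih _ h2 ha (by omega)
      rw [if_pos h1]
      show full 12 (force (push t (64 * a + b) (68 * cap a b)) (capRow a b)) ∧
        val (force (push t (64 * a + b) (68 * cap a b)) (capRow a b)) (GG G) = _
      rw [force_eq]
      refine ⟨h3.1, ?_⟩
      rw [h3.2, val_push t 12 _ _ _ ht (by omega), GG_eq' G a b h1 (by omega)]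
      ring

theorem val_capAll (G : ℕ → ℕ → ℤ) (a : ℕ) : ∀ t : T, full 12 t → a ≤ 48 →
    val (capAll a t) (GG G) = val t (GG G) + ∑ i ∈ range a,
      ∑ j ∈ range 48, if i < j then ((68 * cap i j : ℕ) : ℤ) * G i j else 0 := by
  induction a with
  | zero =>
    intro t _ _
    rw [range_zero, sum_empty, add_zero]
    rfl
  | succ a ih =>
    intro t ht ha
    have h1 := val_capRow G a 48 t ht (by omega) le_rfl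
    show val (force (capRow a 48 t) (capAll a)) (GG G) = _
    rw [force_eq, ih _ h1.1 (by omega), h1.2, sum_range_succ _ a]
    ring

theorem packing (G : ℕ → ℕ → ℤ) (hG : ∀ a b, a < b → b ≤ 47 → 0 ≤ G a b) :
    (copies.map fun c => (c.2.2.2.2.2 : ℤ) *
      ∑ S ∈ (Finset.univ : Finset (Finset (Fin 4))).erase ∅, G (sA c S) (sA c S + sD c S)).sum
      ≤ ∑ p ∈ (Finset.range 48 ×ˢ Finset.range 48).filter (fun p => p.1 < p.2),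
        ((68 * cap p.1 p.2 : ℕ) : ℤ) * G p.1 p.2 := by
  have h1 := val_foldC G copies (zero 12) (zero_full 12) copies_ok
  have h2 := val_capAll G 48 (zero 12) (zero_full 12) le_rfl
  have h3 := val_le _ _ (GG G) (GG_nonneg G hG) compare
  rw [h1, h2, val_zero, zero_add, zero_add] at h3
  refine h3.trans (le_of_eq ?_)
  rw [sum_filter, sum_product]

end Pool.Agent.HJ47
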